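import Pool.Agent.Lib.MP_763071_co.Minor

/-!
# MP_763071_co : linear extensions and the final theorem (`d = 2`)
-/

set_option autoImplicit false

namespace Pool.Agent.MP763071

theorem enc_lt {M u u' v v' : ℕ} (hv : v < M) (hu : u < u') : u * M + v < u' * M + v' := by
  have : (u + 1) * M ≤ u' * M := Nat.mul_le_mul_right M hu
  rw [Nat.add_mul, Nat.one_mul] at this
  omega

theorem enc_lt' {M u u' v v' : ℕ} (hu : u ≤ u') (hv : v < v') : u * M + v < u' * M + v' := by
  have : u * M ≤ u' * M := Nat.mul_le_mul_right M hu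
  omega

theorem enc_inj {M u u' v v' : ℕ} (hv : v < M) (hv' : v' < M) (h : u * M + v = u' * M + v') :
    v = v' := by
  have h1 : (u * M + v) % M = (u' * M + v') % M := by rw [h]
  rw [Nat.mul_comm u, Nat.mul_comm u', Nat.mul_add_mod, Nat.mul_add_mod, Nat.mod_eq_of_lt hv,
    Nat.mod_eq_of_lt hv'] at h1
  exact h1

/-- `D` choice functions reversing the crossing pairs give `D + 4` linear extensions. -/
theorem realizer_of_cov {P : Type} [Fintype P] [PartialOrder P] {a b : P → ℕ}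
    (hab : ∀ x, a x ≤ b x) (hlt : ∀ x y, x < y ↔ b x < a y) {D : ℕ}
    (hD : Cov D a b Set.univ) :
    ∃ f : Fin (D + 4) → P → ℕ, (∀ i, Function.Injective (f i)) ∧
      ∀ x y : P, x ≤ y ↔ ∀ i, f i x ≤ f i y := by
  classical
  obtain ⟨π, h1, h2⟩ := hD
  -- tie breaking
  let M := Fintype.card P
  let τ : P → ℕ := fun x => (Fintype.equivFin P x).1
  have hτM : ∀ x, τ x < M := fun x => (Fintype.equivFin P x).2
  have hτ : Function.Injective τ := fun x y hxy =>
    (Fintype.equivFin P).injective (Fin.ext hxy)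
  let τ' : P → ℕ := fun x => M - 1 - τ x
  have hτ'M : ∀ x, τ' x < M := fun x => by have := hτM x; show M - 1 - τ x < M; omega
  have hτ' : Function.Injective τ' := fun x y hxy => by
    apply hτ
    have h3 : M - 1 - τ x = M - 1 - τ y := hxy
    have := hτM x
    have := hτM y
    omega
  let N := Finset.univ.sup a
  have hN : ∀ x, a x ≤ N := fun x => Finset.le_sup (f := a) (Finset.mem_univ x)
  let F : Fin D ⊕ Fin 4 → P → ℕ := fun i x => match i with
    | Sum.inl t => (π t x * (N + 1) + (N - a x)) * M + τ x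
    | Sum.inr 0 => a x * M + τ x
    | Sum.inr 1 => a x * M + τ' x
    | Sum.inr 2 => b x * M + τ x
    | Sum.inr 3 => b x * M + τ' x
  have hFinj : ∀ i, Function.Injective (F i) := by
    intro i x y hxy
    match i with
    | Sum.inl t => exact hτ (enc_inj (hτM x) (hτM y) hxy)
    | Sum.inr 0 => exact hτ (enc_inj (hτM x) (hτM y) hxy)
    | Sum.inr 1 => exact hτ' (enc_inj (hτ'M x) (hτ'M y) hxy)
    | Sum.inr 2 => exact hτ (enc_inj (hτM x) (hτM y) hxy)
    | Sum.inr 3 => exact hτ' (enc_inj (hτ'M x) (hτ'M y) hxy)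
  have hFlt : ∀ x y, x < y → ∀ i, F i x < F i y := by
    intro x y hxy i
    rw [hlt] at hxy
    have q1 := hab x
    have q2 := hab y
    match i with
    | Sum.inl t =>
      have q3 := (h1 t x (Set.mem_univ _)).2
      have q4 := (h1 t y (Set.mem_univ _)).1
      refine enc_lt (hτM x) (enc_lt ?_ ?_)
      · omega
      · omega
    | Sum.inr 0 => exact enc_lt (hτM x) (by omega)
    | Sum.inr 1 => exact enc_lt (hτ'M x) (by omega)
    | Sum.inr 2 => exact enc_lt (hτM x) (by omega)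
    | Sum.inr 3 => exact enc_lt (hτ'M x) (by omega)
  have hFrev : ∀ x y, ¬ x ≤ y → ∃ i, F i y < F i x := by
    intro x y hxy
    by_cases hyx : y < x
    · exact ⟨Sum.inr 0, hFlt y x hyx (Sum.inr 0)⟩
    have hne : x ≠ y := fun h => hxy h.le
    have hnlt : ¬ x < y := fun h => hxy h.le
    rw [hlt] at hyx hnlt
    have hτne : τ x ≠ τ y := fun h => hne (hτ h)
    have hx := hτM x
    have hy := hτM y
    have tie : τ y < τ x ∨ τ' y < τ' x := by
      rcases Nat.lt_or_ge (τ y) (τ x) with h3 | h3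
      · exact Or.inl h3
      · right
        show M - 1 - τ y < M - 1 - τ x
        omega
    rcases lt_trichotomy (a y) (a x) with h3 | h3 | h3
    · exact ⟨Sum.inr 0, enc_lt (hτM y) h3⟩
    · rcases tie with h4 | h4
      · exact ⟨Sum.inr 0, enc_lt' h3.le h4⟩
      · exact ⟨Sum.inr 1, enc_lt' h3.le h4⟩
    · rcases lt_trichotomy (b y) (b x) with h5 | h5 | h5
      · exact ⟨Sum.inr 2, enc_lt (hτM y) h5⟩
      · rcases tie with h4 | h4
        · exact ⟨Sum.inr 2, enc_lt' h5.le h4⟩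
        · exact ⟨Sum.inr 3, enc_lt' h5.le h4⟩
      · obtain ⟨t, ht⟩ := h2 x (Set.mem_univ _) y (Set.mem_univ _) ⟨h3, by omega, h5⟩
        refine ⟨Sum.inl t, enc_lt (hτM y) (enc_lt' ht ?_)⟩
        have := hN x
        have := hN y
        omega
  let e : Fin (D + 4) ≃ Fin D ⊕ Fin 4 := finSumFinEquiv.symm
  refine ⟨fun i => F (e i), fun i => hFinj _, fun x y => ⟨fun hxy i => ?_, fun hxy => ?_⟩⟩
  · rcases hxy.lt_or_eq with h3 | h3
    · exact (hFlt x y h3 _).le
    · rw [h3]
  · by_contra hc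
    obtain ⟨i, hi⟩ := hFrev x y hc
    have := hxy (e.symm i)
    simp only [Equiv.apply_symm_apply] at this
    omega

/-- all crossing pairs of an interval order are covered, if there is no `K_n` minor -/
theorem Chain.cov_univ {P : Type} {a b : P → ℕ} {h : ℕ} {p : ℕ → ℕ} {z : ℕ → P}
    [PartialOrder P] (hc : Chain a b h p z) (hab : ∀ x, a x ≤ b x)
    (hlt : ∀ x y, x < y ↔ b x < a y) {n D : ℕ} (hh : 1 ≤ h)
    (hD : ∀ (ι : Type) (l r : ι → ℕ) (h : ℕ) (A : Set ι),
      (∀ z ∈ A, l z ≤ r z) → (∀ z ∈ A, r z < h) → ¬ HasSeg n l r h A → Cov D l r A)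
    (hn : ¬ ∃ B : Fin n → Set P,
        (∀ i, ((SimpleGraph.fromRel (fun x y : P => x ⋖ y)).induce (B i)).Connected) ∧
        (∀ i j, i ≠ j → Disjoint (B i) (B j)) ∧
        ∀ i j, i ≠ j → ∃ x ∈ B i, ∃ y ∈ B j,
          (SimpleGraph.fromRel (fun x y : P => x ⋖ y)).Adj x y) :
    Cov (2 * D + 18) a b Set.univ := by
  have hall : ∀ A : Set P, ∀ x ∈ A, a x ≤ b x := fun _ x _ => hab x
  let C0 : Set P := {x | fst h p a x = 0}
  let C1 : Set P := {x | lst h p b x + 1 = h}
  let C2 : Set P := {x | lst h p b x + 2 = h}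
  let E0 : Set P := {x | fst h p a x = lst h p b x ∧ fst h p a x % 2 = 0}
  let E1 : Set P := {x | fst h p a x = lst h p b x ∧ fst h p a x % 2 = 1}
  have c0 : Cov 1 a b C0 := by
    refine cov_point (p 0) ?_
    intro x hx
    have hx' : fst h p a x = 0 := hx
    have := hc.fst_spec x
    rw [hx'] at this
    exact ⟨this.2.1, this.2.2.1⟩
  have hlast : ∀ s, Cov 1 a b {x : P | lst h p b x = s} := by
    intro s
    refine cov_point (p s) ?_
    intro x hx
    have hx' : lst h p b x = s := hx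
    have f1 := hc.fst_spec x
    have f2 := hc.lst_spec x
    rw [hx'] at f2
    exact ⟨f1.2.1.trans (hc.le_p f2.1 f2.2.1), f2.2.2.1⟩
  have c1 : Cov 1 a b C1 := (hlast (h - 1)).mono (fun x hx => by
    have hx' : lst h p b x + 1 = h := hx
    show lst h p b x = h - 1
    omega)
  have c2 : Cov 1 a b C2 := (hlast (h - 2)).mono (fun x hx => by
    have hx' : lst h p b x + 2 = h := hx
    show lst h p b x = h - 2
    omega)
  have hE : ∀ c, Cov 1 a b {x : P | fst h p a x = lst h p b x ∧ fst h p a x % 2 = c} := by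
    intro c
    refine cov_one (fun x => p (fst h p a x)) ?_ ?_
    · intro x _
      have f1 := hc.fst_spec x
      exact ⟨f1.2.1, f1.2.2.1⟩
    · rintro e ⟨he1, he2⟩ f ⟨hf1, hf2⟩ ⟨q1, q2, q3⟩
      show p (fst h p a f) ≤ p (fst h p a e)
      rcases Nat.lt_or_ge (fst h p a e) (fst h p a f) with h1 | h1
      · exfalso
        have f1 := hc.fst_spec f
        have e1 := hc.lst_spec e
        have w1 := f1.2.2.2 (fst h p a e + 1) (by omega)
        have w2 := e1.2.2.2.1 (by omega)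
        rw [← he1] at w2
        omega
      · exact hc.le_p h1 (hc.fst_spec e).1
  have e0 : Cov 1 a b E0 := hE 0
  have e1 : Cov 1 a b E1 := hE 1
  have r0 := hc.cls_cov hab hlt (r := 0) (by omega) hh hD hn
  have r1 := hc.cls_cov hab hlt (r := 1) (by omega) hh hD hn
  have r2 := hc.cls_cov hab hlt (r := 2) (by omega) hh hD hn
  have r3 := hc.cls_cov hab hlt (r := 3) (by omega) hh hD hn
  have u1 := (r0.union r1 (hall _)).union (r2.union r3 (hall _)) (hall _)
  have u2 := (c0.union c1 (hall _)).union (e0.union e1 (hall _)) (hall _)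
  have u3 := (u1.union u2 (hall _)).union c2 (hall _)
  refine (u3.mono_nat (D' := 2 * D + 18) ?_ (hall _)).mono ?_
  · simp only [max_self]
    have : max (max (2 * D + 2 + 2 + 2) (1 + 2 + 2) + 2) 1 ≤ 2 * D + 9 := by
      rw [max_le_iff]
      constructor
      · have : max (2 * D + 2 + 2 + 2) (1 + 2 + 2) ≤ 2 * D + 6 := by
          rw [max_le_iff]; omega
        omega
      · omega
    omega
  · intro x _
    have f1 := hc.fst_spec x
    have f2 := hc.lst_spec x
    by_cases k0 : fst h p a x = 0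
    · exact Or.inl (Or.inr (Or.inl (Or.inl k0)))
    by_cases k1 : lst h p b x + 1 = h
    · exact Or.inl (Or.inr (Or.inl (Or.inr k1)))
    by_cases k2 : lst h p b x + 2 = h
    · exact Or.inr k2
    by_cases k3 : fst h p a x = lst h p b x
    · rcases Nat.mod_two_eq_zero_or_one (fst h p a x) with k4 | k4
      · exact Or.inl (Or.inr (Or.inr (Or.inl ⟨k3, k4⟩)))
      · exact Or.inl (Or.inr (Or.inr (Or.inr ⟨k3, k4⟩)))
    · have hcls : ∃ r, r ≤ 3 ∧ (fst h p a x + r) % 4 ≠ 0 ∧ (lst h p b x + r) % 4 ≤ 1 := by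
        by_cases hz : (fst h p a x + (4 - lst h p b x % 4) % 4) % 4 = 0
        · exact ⟨(5 - lst h p b x % 4) % 4, by omega, by omega, by omega⟩
        · exact ⟨(4 - lst h p b x % 4) % 4, by omega, hz, by omega⟩
      obtain ⟨r, hr, hr1, hr2⟩ := hcls
      have hmem : x ∈ Cls h p a b r := ⟨by omega, by omega, by omega, hr1, hr2⟩
      have hr' : r = 0 ∨ r = 1 ∨ r = 2 ∨ r = 3 := by omega
      rcases hr' with rfl | rfl | rfl | rfl
      · exact Or.inl (Or.inl (Or.inl (Or.inl hmem)))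
      · exact Or.inl (Or.inl (Or.inl (Or.inr hmem)))
      · exact Or.inl (Or.inl (Or.inr (Or.inl hmem)))
      · exact Or.inl (Or.inl (Or.inr (Or.inr hmem)))

/-- The case `d = 2`, with an explicit bound. -/
theorem main (n : ℕ) (P : Type) [Fintype P] [PartialOrder P]
    (hS2 : ¬ ∃ a b : Fin 2 → P, (∀ i j, i ≠ j → a i < b j) ∧ ∀ i, ¬ a i ≤ b i)
    (hn : ¬ ∃ B : Fin n → Set P,
        (∀ i, ((SimpleGraph.fromRel (fun x y : P => x ⋖ y)).induce (B i)).Connected) ∧
        (∀ i j, i ≠ j → Disjoint (B i) (B j)) ∧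
        ∀ i j, i ≠ j → ∃ x ∈ B i, ∃ y ∈ B j,
          (SimpleGraph.fromRel (fun x y : P => x ⋖ y)).Adj x y) :
    ∃ k : ℕ, k < 26 * 2 ^ n ∧ ∃ f : Fin k → P → ℕ,
      (∀ i, Function.Injective (f i)) ∧ ∀ x y : P, x ≤ y ↔ ∀ i, f i x ≤ f i y := by
  have h2 : 1 ≤ 2 ^ n := Nat.one_le_two_pow
  rcases isEmpty_or_nonempty P with hP | hP
  · exact ⟨0, by omega, fun _ _ => 0, fun i => i.elim0, fun x => (hP.false x).elim⟩
  obtain ⟨a, b, hab, hlt⟩ := exists_rep P hS2
  obtain ⟨h, p, z, hc⟩ := exists_chain a b hab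
  have hh : 1 ≤ h := by
    obtain ⟨s, hs, _⟩ := hc.stab (Classical.arbitrary P)
    omega
  have hcov := hc.cov_univ hab hlt hh (star n) hn
  exact ⟨_, by omega, realizer_of_cov hab hlt hcov⟩

end Pool.Agent.MP763071
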