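import Pool.Agent.Lib.MP_763071_co.Poset

/-!
# MP_763071_co : joined segments of superblocks give a clique minor of the cover graph
-/

set_option autoImplicit false

namespace Pool.Agent.MP763071

variable {P : Type} {a b : P → ℕ} {h : ℕ} {p : ℕ → ℕ} {z : ℕ → P}

/-- `x` lies in the bag `s` -/
def InBag (h : ℕ) (p : ℕ → ℕ) (z : ℕ → P) (a : P → ℕ) (x : P) (s : ℕ) : Prop :=
  (x = z (fst h p a x) ∧ fst h p a x = s) ∨ (x ≠ z (fst h p a x) ∧ fst h p a x = s + 1)

theorem InBag.unique {x : P} {s t : ℕ} (h1 : InBag h p z a x s) (h2 : InBag h p z a x t) :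
    s = t := by
  rcases h1 with ⟨h1, h1'⟩ | ⟨h1, h1'⟩ <;> rcases h2 with ⟨h2, h2'⟩ | ⟨h2, h2'⟩
  · omega
  · exact absurd h1 h2
  · exact absurd h2 h1
  · omega

/-- the branch sets -/
def Branch (h : ℕ) (p : ℕ → ℕ) (z : ℕ → P) (a : P → ℕ) (r α β : ℕ) : Set P :=
  {x | ∃ s, s < h ∧ α ≤ (s + r) / 4 ∧ (s + r) / 4 ≤ β ∧ InBag h p z a x s}

/-- the elements of class `r` -/
def Cls (h : ℕ) (p : ℕ → ℕ) (a b : P → ℕ) (r : ℕ) : Set P :=
  {x | 1 ≤ fst h p a x ∧ fst h p a x < lst h p b x ∧ lst h p b x + 2 < h ∧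
    (fst h p a x + r) % 4 ≠ 0 ∧ (lst h p b x + r) % 4 ≤ 1}

theorem Chain.z_inBag (hc : Chain a b h p z) (hab : ∀ x, a x ≤ b x) {s : ℕ} (hs : s < h) :
    InBag h p z a (z s) s := by
  left
  rw [hc.fst_z hab hs]
  exact ⟨rfl, rfl⟩

variable [PartialOrder P]

/-- the cover graph -/
abbrev CG (P : Type) [PartialOrder P] : SimpleGraph P :=
  SimpleGraph.fromRel (fun x y : P => x ⋖ y)

theorem cg_adj {x y : P} (hxy : x ⋖ y) : (CG P).Adj x y := by
  rw [SimpleGraph.fromRel_adj]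
  exact ⟨hxy.1.ne, Or.inl hxy⟩

theorem Chain.branch_connected (hc : Chain a b h p z) (hab : ∀ x, a x ≤ b x)
    (hlt : ∀ x y, x < y ↔ b x < a y) {r α β : ℕ} (hr : r ≤ 3) (hαβ : α ≤ β)
    (hβ : β < (h - 1 + r) / 4 + 1) (hh : 1 ≤ h) :
    ((CG P).induce (Branch h p z a r α β)).Connected := by
  classical
  have hroot : z (4 * α - r) ∈ Branch h p z a r α β := by
    refine ⟨4 * α - r, by omega, by omega, by omega, hc.z_inBag hab (by omega)⟩
  refine connected_of_rank (CG P) _ (z (4 * α - r)) hroot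
    (fun x => if x = z (fst h p a x) then 2 * fst h p a x else 2 * fst h p a x - 1) ?_
  rintro v ⟨s, hs, hs1, hs2, hv⟩ hne
  rcases hv with ⟨hv1, hv2⟩ | ⟨hv1, hv2⟩
  · -- v = z s
    rw [hv2] at hv1
    have hs0 : s ≠ 4 * α - r := fun h' => hne (h' ▸ hv1)
    have hs3 : 4 * α - r < s := by omega
    obtain ⟨t, rfl⟩ : ∃ t, s = t + 1 := ⟨s - 1, by omega⟩
    refine ⟨z t, ⟨t, by omega, by omega, by omega, hc.z_inBag hab (by omega)⟩, ?_, ?_⟩
    · have h1 : fst h p a (z t) = t := hc.fst_z hab (by omega)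
      simp only [h1, if_true, hv2, ← hv1]
      omega
    · exact (cg_adj (hc.covBy_fst hlt hv2)).symm
  · refine ⟨z s, ⟨s, hs, hs1, hs2, hc.z_inBag hab hs⟩, ?_, (cg_adj (hc.covBy_fst hlt hv2)).symm⟩
    have h1 : fst h p a (z s) = s := hc.fst_z hab hs
    rw [hv2] at hv1
    simp only [h1, if_true, hv2, if_neg hv1]
    omega

theorem Chain.branch_adj (hc : Chain a b h p z) (hab : ∀ x, a x ≤ b x)
    (hlt : ∀ x y, x < y ↔ b x < a y) {r : ℕ} (hr : r ≤ 3) {α β α' β' : ℕ} (h1 : α ≤ β)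
    (h2 : β < α') (h3 : α' ≤ β') (hβ : β' < (h - 1 + r) / 4 + 1)
    (hj : α' = β + 1 ∨ ∃ x ∈ Cls h p a b r, α ≤ (idx h p (a x) + r) / 4 ∧
      (idx h p (a x) + r) / 4 ≤ β ∧ α' ≤ (idx h p (b x) + r) / 4 ∧
      (idx h p (b x) + r) / 4 ≤ β') :
    ∃ x ∈ Branch h p z a r α β, ∃ y ∈ Branch h p z a r α' β', (CG P).Adj x y := by
  rcases hj with hj | ⟨x, ⟨x1, x2, x3, x4, x5⟩, e1, e2, e3, e4⟩
  · refine ⟨z (4 * α' - r - 1), ⟨_, by omega, by omega, by omega, hc.z_inBag hab (by omega)⟩,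
      z (4 * α' - r), ⟨_, by omega, by omega, by omega, hc.z_inBag hab (by omega)⟩, ?_⟩
    refine cg_adj (hc.covBy_fst hlt ?_)
    rw [hc.fst_z hab (by omega)]
    omega
  · change α ≤ (fst h p a x + r) / 4 at e1
    change (fst h p a x + r) / 4 ≤ β at e2
    have hl := hc.idx_b x
    have hlc : (idx h p (b x) + r) / 4 = (lst h p b x + r) / 4 := by omega
    rw [hlc] at e3 e4
    have hxb : x ∈ Branch h p z a r α β := by
      refine ⟨fst h p a x - 1, by omega, by omega, by omega, Or.inr ⟨?_, by omega⟩⟩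
      intro hxz
      have h4 : lst h p b x = fst h p a x := by
        conv_lhs => rw [hxz]
        exact hc.lst_z hab (by omega)
      omega
    refine ⟨x, hxb, ?_⟩
    rcases hc.covBy_lst hab hlt x3 with hcov | ⟨w, hcov, hw⟩
    · exact ⟨_, ⟨lst h p b x + 2, x3, by omega, by omega, hc.z_inBag hab x3⟩, cg_adj hcov⟩
    · refine ⟨w, ?_, cg_adj hcov⟩
      by_cases hwz : w = z (fst h p a w)
      · exact ⟨lst h p b x + 1, by omega, by omega, by omega, Or.inl ⟨hwz, hw⟩⟩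
      · exact ⟨lst h p b x, by omega, by omega, by omega, Or.inr ⟨hwz, hw⟩⟩

/-- Without a `K_n` minor, the classes `Cls r` are covered by boundedly many functions. -/
theorem Chain.cls_cov (hc : Chain a b h p z) (hab : ∀ x, a x ≤ b x)
    (hlt : ∀ x y, x < y ↔ b x < a y) {r n D : ℕ} (hr : r ≤ 3) (hh : 1 ≤ h)
    (hD : ∀ (ι : Type) (l r : ι → ℕ) (h : ℕ) (A : Set ι),
      (∀ z ∈ A, l z ≤ r z) → (∀ z ∈ A, r z < h) → ¬ HasSeg n l r h A → Cov D l r A)
    (hn : ¬ ∃ B : Fin n → Set P,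
        (∀ i, ((SimpleGraph.fromRel (fun x y : P => x ⋖ y)).induce (B i)).Connected) ∧
        (∀ i j, i ≠ j → Disjoint (B i) (B j)) ∧
        ∀ i j, i ≠ j → ∃ x ∈ B i, ∃ y ∈ B j,
          (SimpleGraph.fromRel (fun x y : P => x ⋖ y)).Adj x y) :
    Cov (2 * D + 2) a b (Cls h p a b r) := by
  have hlt' : ∀ x ∈ Cls h p a b r, (idx h p (a x) + r) / 4 < (idx h p (b x) + r) / 4 := by
    rintro x ⟨x1, x2, x3, x4, x5⟩
    have hl := hc.idx_b x
    change (fst h p a x + r) / 4 < _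
    omega
  refine cov_quot (fun y => (idx h p y + r) / 4) (fun y y' hyy => ?_) hlt' ?_
  · have := idx_mono (h := h) (p := p) hyy
    show (idx h p y + r) / 4 ≤ (idx h p y' + r) / 4
    omega
  refine hD P _ _ ((h - 1 + r) / 4 + 1) _ (fun x hx => (hlt' x hx).le) ?_ ?_
  · rintro x ⟨x1, x2, x3, x4, x5⟩
    have hl := hc.idx_b x
    show (idx h p (b x) + r) / 4 < _
    omega
  rintro ⟨α, β, h1, h2, h3⟩
  apply hn
  refine ⟨fun i => Branch h p z a r (α i) (β i), fun i => ?_, ?_, ?_⟩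
  · exact hc.branch_connected hab hlt hr (h1 i) (h2 i) hh
  · have key : ∀ i j, i < j → Disjoint (Branch h p z a r (α i) (β i))
        (Branch h p z a r (α j) (β j)) := by
      intro i j hij
      rw [Set.disjoint_left]
      rintro x ⟨s, hs, hs1, hs2, hs3⟩ ⟨t, ht, ht1, ht2, ht3⟩
      have := hs3.unique ht3
      have := (h3 i j hij).1
      subst_vars
      omega
    intro i j hij
    rcases lt_or_gt_of_ne hij with h4 | h4
    · exact key i j h4
    · exact (key j i h4).symm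
  · have key : ∀ i j, i < j → ∃ x ∈ Branch h p z a r (α i) (β i),
        ∃ y ∈ Branch h p z a r (α j) (β j), (CG P).Adj x y := by
      intro i j hij
      obtain ⟨g1, g2⟩ := h3 i j hij
      exact hc.branch_adj hab hlt hr (h1 i) g1 (h1 j) (h2 j) g2
    intro i j hij
    rcases lt_or_gt_of_ne hij with h4 | h4
    · exact key i j h4
    · obtain ⟨x, hx, y, hy, hxy⟩ := key j i h4
      exact ⟨y, hy, x, hx, hxy.symm⟩

end Pool.Agent.MP763071
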