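import Pool.Agent.Lib.MP_763071_co.Region

/-!
# MP_763071_co : interval orders, the greedy chain, and minors of the cover graph
-/

set_option autoImplicit false

namespace Pool.Agent.MP763071

/-- A finite poset without `2 + 2` has an interval representation. -/
theorem exists_rep (P : Type) [Fintype P] [PartialOrder P]
    (h : ¬ ∃ a b : Fin 2 → P, (∀ i j, i ≠ j → a i < b j) ∧ ∀ i, ¬ a i ≤ b i) :
    ∃ a b : P → ℕ, (∀ x, a x ≤ b x) ∧ ∀ x y, x < y ↔ b x < a y := by
  classical
  let a : P → ℕ := fun x => (Finset.univ.filter (fun u => u < x)).card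
  let b : P → ℕ := fun x => (Finset.univ.filter (fun y => ¬ x < y)).sup a
  have hle : ∀ x y, ¬ x < y → a y ≤ b x := fun x y hxy =>
    Finset.le_sup (f := a) (by simpa using hxy)
  refine ⟨a, b, fun x => hle x x (lt_irrefl x), fun x y => ⟨fun hxy => ?_, fun hxy => ?_⟩⟩
  · have key : ∀ w, ¬ x < w → a w < a y := by
      intro w hxw
      refine Finset.card_lt_card (Finset.ssubset_iff_of_subset ?_ |>.mpr ⟨x, by simpa using hxy,
        by simpa using hxw⟩)
      intro u hu
      have huw : u < w := by simpa using hu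
      by_contra hc
      have huy : ¬ u < y := by simpa using hc
      refine h ⟨![u, x], ![y, w], ?_, ?_⟩
      · intro i j hij
        fin_cases i <;> fin_cases j <;> simp_all
      · intro i
        fin_cases i
        · simp only [Fin.zero_eta, Matrix.cons_val_zero]
          intro huy'
          rcases huy'.lt_or_eq with h1 | h1
          · exact huy h1
          · exact hxw (hxy.trans (h1 ▸ huw))
        · simp only [Fin.mk_one, Matrix.cons_val_one, Matrix.cons_val_fin_one]
          intro hxw'
          rcases hxw'.lt_or_eq with h1 | h1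
          · exact hxw h1
          · exact huy ((h1 ▸ huw : u < x).trans hxy)
    have h0 : 0 < a y := lt_of_le_of_lt (Nat.zero_le _) (key x (lt_irrefl x))
    exact (Finset.sup_lt_iff h0).mpr (fun w hw => key w (by simpa using hw))
  · by_contra hc
    have := hle x y hc
    omega

/-- A greedy chain. -/
structure Chain {P : Type} (a b : P → ℕ) (h : ℕ) (p : ℕ → ℕ) (z : ℕ → P) : Prop where
  mono : ∀ s t, s < t → t < h → p s < p t
  bz : ∀ s, s < h → b (z s) = p s
  az : ∀ s, s + 1 < h → p s < a (z (s + 1))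
  stab : ∀ x, ∃ s, s < h ∧ a x ≤ p s ∧ p s ≤ b x

theorem exists_chain {P : Type} [Fintype P] [Nonempty P] (a b : P → ℕ) (hab : ∀ x, a x ≤ b x) :
    ∃ h p z, Chain a b h p z := by
  classical
  have key : ∀ N : ℕ, ∃ (h : ℕ) (p : ℕ → ℕ) (z : ℕ → P),
      (∀ s, s < h → p s < N) ∧
      (∀ s t, s < t → t < h → p s < p t) ∧ (∀ s, s < h → b (z s) = p s) ∧
      (∀ s, s + 1 < h → p s < a (z (s + 1))) ∧
      ∀ x, b x < N → ∃ s, s < h ∧ a x ≤ p s ∧ p s ≤ b x := by
    intro N
    induction N with
    | zero =>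
      exact ⟨0, fun _ => 0, fun _ => Classical.arbitrary P, by intro s hs; omega,
        by intro s t _ ht; omega, by intro s hs; omega, by intro s hs; omega,
        by intro x hx; omega⟩
    | succ N ih =>
      obtain ⟨h, p, z, h1, h2, h3, h4, h5⟩ := ih
      by_cases hx : ∃ x, b x = N ∧ ∀ s, s < h → p s < a x
      · obtain ⟨x, hxN, hxa⟩ := hx
        refine ⟨h + 1, fun s => if s < h then p s else N, fun s => if s < h then z s else x,
          ?_, ?_, ?_, ?_, ?_⟩
        · intro s hs
          by_cases h' : s < h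
          · have := h1 s h'
            simp only [h', if_true]; omega
          · simp [h']
        · intro s t hst ht
          have hs : s < h := by omega
          by_cases h' : t < h
          · simpa [hs, h'] using h2 s t hst h'
          · simpa [hs, h'] using h1 s hs
        · intro s hs
          by_cases h' : s < h
          · simpa [h'] using h3 s h'
          · simpa [h'] using hxN
        · intro s hs
          have hs' : s < h := by omega
          by_cases h' : s + 1 < h
          · simpa [hs', h'] using h4 s h'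
          · simpa [hs', h'] using hxa s hs'
        · intro y hy
          by_cases hyN : b y < N
          · obtain ⟨s, hs, q1, q2⟩ := h5 y hyN
            exact ⟨s, by omega, by simpa [hs] using q1, by simpa [hs] using q2⟩
          · have hyN' : b y = N := by omega
            by_cases hya : ∀ s, s < h → p s < a y
            · refine ⟨h, by omega, ?_, ?_⟩
              · simpa [← hyN'] using hab y
              · simp [hyN']
            · push Not at hya
              obtain ⟨s, hs, q1⟩ := hya
              have := h1 s hs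
              refine ⟨s, by omega, by simpa [hs] using q1, ?_⟩
              simp only [hs, if_true]
              omega
      · push Not at hx
        refine ⟨h, p, z, fun s hs => by have := h1 s hs; omega, h2, h3, h4, ?_⟩
        intro y hy
        by_cases hyN : b y < N
        · exact h5 y hyN
        · obtain ⟨s, hs, q1⟩ := hx y (by omega)
          have := h1 s hs
          exact ⟨s, hs, q1, by omega⟩
  obtain ⟨h, p, z, _, h2, h3, h4, h5⟩ := key (Finset.univ.sup b + 1)
  exact ⟨h, p, z, ⟨h2, h3, h4, fun x => h5 x (Nat.lt_succ_of_le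
    (Finset.le_sup (f := b) (Finset.mem_univ x)))⟩⟩

/-- index of the first chain point `≥ y` (or `h`) -/
noncomputable def idx (h : ℕ) (p : ℕ → ℕ) (y : ℕ) : ℕ := sInf {s | s = h ∨ y ≤ p s}

section idx

variable {h : ℕ} {p : ℕ → ℕ}

theorem idx_mem (h : ℕ) (p : ℕ → ℕ) (y : ℕ) : idx h p y = h ∨ y ≤ p (idx h p y) :=
  Nat.sInf_mem (s := {s | s = h ∨ y ≤ p s}) ⟨h, Or.inl rfl⟩

theorem idx_le (h : ℕ) (p : ℕ → ℕ) (y : ℕ) : idx h p y ≤ h :=
  Nat.sInf_le (s := {s | s = h ∨ y ≤ p s}) (Or.inl rfl)

theorem idx_le_of_le {y s : ℕ} (hs : y ≤ p s) : idx h p y ≤ s :=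
  Nat.sInf_le (s := {s | s = h ∨ y ≤ p s}) (Or.inr hs)

theorem lt_of_lt_idx {y s : ℕ} (hs : s < idx h p y) : p s < y := by
  by_contra hc
  have := idx_le_of_le (h := h) (p := p) (y := y) (s := s) (not_lt.mp hc)
  omega

theorem idx_mono : Monotone (idx h p) := by
  intro y y' hyy
  rcases idx_mem h p y' with h1 | h1
  · rw [h1]; exact idx_le h p y
  · exact idx_le_of_le (hyy.trans h1)

end idx

section chain

variable {P : Type} {a b : P → ℕ} {h : ℕ} {p : ℕ → ℕ} {z : ℕ → P}

/-- index of the first chain point in `x` -/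
noncomputable def fst (h : ℕ) (p : ℕ → ℕ) (a : P → ℕ) (x : P) : ℕ := idx h p (a x)

/-- index of the last chain point in `x` -/
noncomputable def lst (h : ℕ) (p : ℕ → ℕ) (b : P → ℕ) (x : P) : ℕ := idx h p (b x + 1) - 1

theorem Chain.le_p (hc : Chain a b h p z) {s t : ℕ} (hst : s ≤ t) (ht : t < h) : p s ≤ p t := by
  rcases hst.lt_or_eq with h1 | h1
  · exact (hc.mono s t h1 ht).le
  · rw [h1]

theorem Chain.fst_spec (hc : Chain a b h p z) (x : P) :
    fst h p a x < h ∧ a x ≤ p (fst h p a x) ∧ p (fst h p a x) ≤ b x ∧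
      ∀ s, s < fst h p a x → p s < a x := by
  obtain ⟨s, hs, h1, h2⟩ := hc.stab x
  have h3 : fst h p a x ≤ s := idx_le_of_le h1
  have h4 : fst h p a x < h := by omega
  refine ⟨h4, ?_, (hc.le_p h3 hs).trans h2, fun s hs => lt_of_lt_idx hs⟩
  rcases idx_mem h p (a x) with h5 | h5
  · have : fst h p a x = h := h5
    omega
  · exact h5

theorem Chain.lst_spec (hc : Chain a b h p z) (x : P) :
    fst h p a x ≤ lst h p b x ∧ lst h p b x < h ∧ p (lst h p b x) ≤ b x ∧
      (lst h p b x + 1 < h → b x < p (lst h p b x + 1)) ∧ idx h p (b x + 1) = lst h p b x + 1 := by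
  obtain ⟨h1, h2, h3, h4⟩ := hc.fst_spec x
  have h5 : fst h p a x < idx h p (b x + 1) := by
    by_contra hcon
    rcases idx_mem h p (b x + 1) with h6 | h6
    · omega
    · have := hc.le_p (not_lt.mp hcon) h1
      omega
  have h6 : idx h p (b x + 1) = lst h p b x + 1 := by
    unfold lst
    omega
  have h7 := idx_le h p (b x + 1)
  refine ⟨by omega, by omega, ?_, ?_, h6⟩
  · have := lt_of_lt_idx (h := h) (p := p) (y := b x + 1) (s := lst h p b x) (by omega)
    omega
  · intro h8
    rcases idx_mem h p (b x + 1) with h9 | h9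
    · omega
    · rw [h6] at h9
      omega

theorem Chain.idx_b (hc : Chain a b h p z) (x : P) :
    lst h p b x ≤ idx h p (b x) ∧ idx h p (b x) ≤ lst h p b x + 1 := by
  obtain ⟨h1, h2, h3, h4, h5⟩ := hc.lst_spec x
  constructor
  · by_contra hcon
    rcases idx_mem h p (b x) with h6 | h6
    · omega
    · have := hc.mono _ _ (not_le.mp hcon) h2
      omega
  · rw [← h5]
    exact idx_mono (Nat.le_succ _)

theorem Chain.fst_z (hc : Chain a b h p z) (hab : ∀ x, a x ≤ b x) {s : ℕ} (hs : s < h) :
    fst h p a (z s) = s := by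
  have h1 : fst h p a (z s) ≤ s := idx_le_of_le (by rw [← hc.bz s hs]; exact hab _)
  by_contra hne
  have h2 : fst h p a (z s) < s := by omega
  obtain ⟨t, rfl⟩ : ∃ t, s = t + 1 := ⟨s - 1, by omega⟩
  have h3 := hc.az t hs
  obtain ⟨h4, h5, h6, h7⟩ := hc.fst_spec (z (t + 1))
  have := hc.le_p (s := fst h p a (z (t + 1))) (t := t) (by omega) (by omega)
  omega

theorem Chain.lst_z (hc : Chain a b h p z) (hab : ∀ x, a x ≤ b x) {s : ℕ} (hs : s < h) :
    lst h p b (z s) = s := by
  obtain ⟨h1, h2, h3, h4, h5⟩ := hc.lst_spec (z s)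
  rw [hc.fst_z hab hs] at h1
  by_contra hne
  have := hc.mono s (lst h p b (z s)) (by omega) h2
  rw [hc.bz s hs] at h3
  omega

variable [PartialOrder P]

theorem Chain.covBy_fst (hc : Chain a b h p z)
    (hlt : ∀ x y, x < y ↔ b x < a y) {x : P} {s : ℕ} (hs : fst h p a x = s + 1) : z s ⋖ x := by
  obtain ⟨h1, h2, h3, h4⟩ := hc.fst_spec x
  have hsh : s < h := by omega
  refine ⟨?_, ?_⟩
  · rw [hlt, hc.bz s hsh]
    exact h4 s (by omega)
  · intro w hw1 hw2
    rw [hlt, hc.bz s hsh] at hw1
    rw [hlt] at hw2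
    obtain ⟨w1, w2, w3, w4⟩ := hc.fst_spec w
    have hsw : s < fst h p a w := by
      by_contra hcon
      have := hc.le_p (not_lt.mp hcon) hsh
      omega
    have := hc.le_p (s := fst h p a x) (t := fst h p a w) (by omega) w1
    omega

theorem Chain.covBy_lst (hc : Chain a b h p z) (hab : ∀ x, a x ≤ b x)
    (hlt : ∀ x y, x < y ↔ b x < a y) {x : P} (hs : lst h p b x + 2 < h) :
    x ⋖ z (lst h p b x + 2) ∨ ∃ w, x ⋖ w ∧ fst h p a w = lst h p b x + 1 := by
  obtain ⟨l1, l2, l3, l4, l5⟩ := hc.lst_spec x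
  have l4' := l4 (by omega)
  have az := hc.az (lst h p b x + 1) hs
  have bz := hc.bz (lst h p b x + 2) hs
  have hxz : x < z (lst h p b x + 2) := by rw [hlt]; exact l4'.trans az
  have key : ∀ w, x < w → w < z (lst h p b x + 2) →
      fst h p a w = lst h p b x + 1 ∧ p (lst h p b x + 1) ≤ b w := by
    intro w hw1 hw2
    rw [hlt] at hw1 hw2
    obtain ⟨w1, w2, w3, w4⟩ := hc.fst_spec w
    have q1 : lst h p b x < fst h p a w := by
      by_contra hcon
      have := hc.le_p (not_lt.mp hcon) l2
      omega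
    have q2 : fst h p a w < lst h p b x + 2 := by
      by_contra hcon
      have := hc.le_p (not_lt.mp hcon) w1
      have := hab (z (lst h p b x + 2))
      omega
    have q3 : fst h p a w = lst h p b x + 1 := by omega
    exact ⟨q3, q3 ▸ w3⟩
  by_cases hcov : x ⋖ z (lst h p b x + 2)
  · exact Or.inl hcov
  · right
    obtain ⟨w, hw1, hw2⟩ := (not_covBy_iff hxz).mp hcov
    obtain ⟨k1, k2⟩ := key w hw1 hw2
    refine ⟨w, ⟨hw1, ?_⟩, k1⟩
    intro w' hw'1 hw'2
    obtain ⟨k3, k4⟩ := key w' hw'1 (hw'2.trans hw2)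
    rw [hlt] at hw'2
    obtain ⟨w1, w2, w3, w4⟩ := hc.fst_spec w
    rw [k1] at w2
    omega

end chain

/-- connectedness from a rooted decreasing rank -/
theorem connected_of_rank {V : Type} (G : SimpleGraph V) (U : Set V) (u : V) (hu : u ∈ U)
    (rank : V → ℕ) (h : ∀ v ∈ U, v ≠ u → ∃ w ∈ U, rank w < rank v ∧ G.Adj v w) :
    (G.induce U).Connected := by
  have key : ∀ N : ℕ, ∀ v (hv : v ∈ U), rank v < N → (G.induce U).Reachable ⟨v, hv⟩ ⟨u, hu⟩ := by
    intro N
    induction N with
    | zero => intro v hv hN; omega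
    | succ N ih =>
      intro v hv hN
      by_cases hvu : v = u
      · subst hvu; exact SimpleGraph.Reachable.refl _
      · obtain ⟨w, hw, hr, hadj⟩ := h v hv hvu
        have h1 : (G.induce U).Adj ⟨v, hv⟩ ⟨w, hw⟩ := by simpa using hadj
        exact h1.reachable.trans (ih w hw (by omega))
  have : Nonempty U := ⟨⟨u, hu⟩⟩
  refine SimpleGraph.Connected.mk ?_
  intro v w
  exact (key _ v.1 v.2 (Nat.lt_succ_self _)).trans (key _ w.1 w.2 (Nat.lt_succ_self _)).symm

end Pool.Agent.MP763071
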