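import Pool.Agent.Lib.MP_763071_co.Star

/-!
# MP_763071_co : the region recursion and the theorem `(*)`
-/

set_option autoImplicit false

namespace Pool.Agent.MP763071

variable {ι : Type}

/-- intervals of `A` inside the region `[s,t)` -/
def Fam (l r : ι → ℕ) (A : Set ι) (s t : ℕ) : Set ι := {z | z ∈ A ∧ s ≤ l z ∧ r z < t}

/-- marks of the region `[s,t)` -/
def Mk (l r : ι → ℕ) (A : Set ι) (s t : ℕ) (p : ℕ) : Prop :=
  p = s ∨ (∃ y ∈ A, l y < s ∧ s ≤ r y ∧ r y < t ∧ r y = p) ∨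
    (∃ y ∈ A, s ≤ l y ∧ l y < t ∧ t ≤ r y ∧ l y = p)

/-- intervals in the region meeting a mark -/
def Vis (l r : ι → ℕ) (A : Set ι) (s t : ℕ) : Set ι :=
  {z | z ∈ Fam l r A s t ∧ ∃ p, Mk l r A s t p ∧ l z ≤ p ∧ p ≤ r z}

/-- the gap around an unmarked position -/
theorem exists_gap {l r : ι → ℕ} {A : Set ι} {s t q : ℕ} (hsq : s ≤ q) (hqt : q < t)
    (hq : ¬ Mk l r A s t q) :
    ∃ S T : ℕ, s < S ∧ S ≤ q ∧ q < T ∧ T ≤ t ∧ Mk l r A s t (S - 1) ∧
      (Mk l r A s t T ∨ T = t) ∧ ∀ p, Mk l r A s t p → S ≤ p → p < T → False := by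
  classical
  have hms : Mk l r A s t s := Or.inl rfl
  set S' := Nat.findGreatest (fun p => Mk l r A s t p) q with hS'
  have h1 : Mk l r A s t S' := Nat.findGreatest_spec (P := fun p => Mk l r A s t p) hsq hms
  have h2 : S' ≤ q := Nat.findGreatest_le q
  have h3 : s ≤ S' := Nat.le_findGreatest hsq hms
  have h4 : S' ≠ q := fun h => hq (h ▸ h1)
  have hne : ∃ T, (Mk l r A s t T ∨ T = t) ∧ q ≤ T := ⟨t, Or.inr rfl, hqt.le⟩
  have hT := Nat.find_spec hne
  have hTmin : ∀ p, (Mk l r A s t p ∨ p = t) → q ≤ p → Nat.find hne ≤ p :=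
    fun p hp hqp => Nat.find_min' hne ⟨hp, hqp⟩
  have hTq : Nat.find hne ≠ q := by
    intro h
    rw [h] at hT
    rcases hT.1 with h' | h'
    · exact hq h'
    · omega
  refine ⟨S' + 1, Nat.find hne, by omega, by omega, by have := hT.2; omega,
    hTmin t (Or.inr rfl) hqt.le, by simpa using h1, hT.1, ?_⟩
  intro p hp hSp hpT
  by_cases hpq : p ≤ q
  · have : p ≤ S' := Nat.le_findGreatest hpq hp
    omega
  · have := hTmin p (Or.inl hp) (by omega)
    omega

theorem region {l r : ι → ℕ} {A : Set ι} {h : ℕ} (hlr : ∀ z ∈ A, l z ≤ r z) (D0 : ℕ)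
    (hV : ∀ s t, t ≤ h → Cov D0 l r (Vis l r A s t)) :
    ∀ N s t, t ≤ h → t - s ≤ N → ∃ (κ : ι → Bool) (π : Fin D0 → ι → ℕ),
      (∀ k, ∀ z ∈ Fam l r A s t, l z ≤ π k z ∧ π k z ≤ r z) ∧
      (∀ e ∈ Fam l r A s t, ∀ f ∈ Fam l r A s t, Cross l r e f → κ e = κ f →
        ∃ k, π k f ≤ π k e) ∧
      (∀ z ∈ Vis l r A s t, κ z = false) := by
  classical
  intro N
  induction N with
  | zero =>
    intro s t _ hN
    have hemp : ∀ z, z ∉ Fam l r A s t := by
      rintro z ⟨h1, h2, h3⟩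
      have := hlr z h1
      omega
    exact ⟨fun _ => false, fun _ _ => 0, fun k z hz => (hemp z hz).elim,
      fun e he => (hemp e he).elim, fun _ _ => rfl⟩
  | succ N ih =>
    intro s t hth hN
    by_cases hst : t ≤ s
    · have hemp : ∀ z, z ∉ Fam l r A s t := by
        rintro z ⟨h1, h2, h3⟩
        have := hlr z h1
        omega
      exact ⟨fun _ => false, fun _ _ => 0, fun k z hz => (hemp z hz).elim,
        fun e he => (hemp e he).elim, fun _ _ => rfl⟩
    -- the gaps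
    have hgap : ∀ q : ℕ, ∃ ST : ℕ × ℕ, (s ≤ q → q < t → ¬ Mk l r A s t q →
        s < ST.1 ∧ ST.1 ≤ q ∧ q < ST.2 ∧ ST.2 ≤ t ∧ Mk l r A s t (ST.1 - 1) ∧
        (Mk l r A s t ST.2 ∨ ST.2 = t) ∧ ∀ p, Mk l r A s t p → ST.1 ≤ p → p < ST.2 → False) := by
      intro q
      by_cases hq : s ≤ q ∧ q < t ∧ ¬ Mk l r A s t q
      · obtain ⟨S, T, hST⟩ := exists_gap hq.1 hq.2.1 hq.2.2
        exact ⟨(S, T), fun _ _ _ => hST⟩
      · exact ⟨(0, 0), fun h1 h2 h3 => absurd ⟨h1, h2, h3⟩ hq⟩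
    choose G hG using hgap
    have hkp : ∀ ST : ℕ × ℕ, ∃ κπ : (ι → Bool) × (Fin D0 → ι → ℕ), ST.2 ≤ h →
        ST.2 - ST.1 ≤ N →
      (∀ k, ∀ z ∈ Fam l r A ST.1 ST.2, l z ≤ κπ.2 k z ∧ κπ.2 k z ≤ r z) ∧
      (∀ e ∈ Fam l r A ST.1 ST.2, ∀ f ∈ Fam l r A ST.1 ST.2, Cross l r e f → κπ.1 e = κπ.1 f →
        ∃ k, κπ.2 k f ≤ κπ.2 k e) ∧
      (∀ z ∈ Vis l r A ST.1 ST.2, κπ.1 z = false) := by
      intro ST
      by_cases hc : ST.2 ≤ h ∧ ST.2 - ST.1 ≤ N
      · obtain ⟨κ, π, hh⟩ := ih ST.1 ST.2 hc.1 hc.2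
        exact ⟨(κ, π), fun _ _ => hh⟩
      · exact ⟨(fun _ => false, fun _ _ => 0), fun h1 h2 => absurd ⟨h1, h2⟩ hc⟩
    choose KP hKP using hkp
    obtain ⟨πV, hV1, hV2⟩ := hV s t hth
    -- facts on non-visible intervals
    have hnv : ∀ z ∈ Fam l r A s t, z ∉ Vis l r A s t →
        (s < (G (l z)).1 ∧ (G (l z)).1 ≤ l z ∧ r z < (G (l z)).2 ∧ (G (l z)).2 ≤ t ∧
        Mk l r A s t ((G (l z)).1 - 1) ∧ (Mk l r A s t (G (l z)).2 ∨ (G (l z)).2 = t) ∧
        (∀ p, Mk l r A s t p → (G (l z)).1 ≤ p → p < (G (l z)).2 → False)) ∧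
        z ∈ Fam l r A (G (l z)).1 (G (l z)).2 := by
      rintro z hz hzv
      obtain ⟨hzA, hz1, hz2⟩ := hz
      have hz3 := hlr z hzA
      have hnm : ∀ p, Mk l r A s t p → l z ≤ p → p ≤ r z → False :=
        fun p hp h1 h2 => hzv ⟨⟨hzA, hz1, hz2⟩, p, hp, h1, h2⟩
      obtain ⟨g1, g2, g3, g4, g5, g6, g7⟩ := hG (l z) hz1 (by omega)
        (fun hp => hnm _ hp le_rfl hz3)
      have hrT : r z < (G (l z)).2 := by
        rcases g6 with g6 | g6
        · by_contra hc
          exact hnm _ g6 g3.le (by omega)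
        · omega
      exact ⟨⟨g1, g2, hrT, g4, g5, g6, g7⟩, hzA, g2, hrT⟩
    -- the size of the gaps
    have hsz : ∀ z ∈ Fam l r A s t, z ∉ Vis l r A s t →
        (G (l z)).2 ≤ h ∧ (G (l z)).2 - (G (l z)).1 ≤ N := by
      intro z hz hzv
      obtain ⟨⟨g1, g2, g3, g4, _⟩, _⟩ := hnv z hz hzv
      omega
    refine ⟨fun z => if z ∈ Vis l r A s t then false else !((KP (G (l z))).1 z),
      fun k z => if z ∈ Vis l r A s t then πV k z else (KP (G (l z))).2 k z, ?_, ?_, ?_⟩
    · intro k z hz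
      by_cases hzv : z ∈ Vis l r A s t
      · simpa [hzv] using hV1 k z hzv
      · obtain ⟨_, hzF⟩ := hnv z hz hzv
        have := hsz z hz hzv
        simpa [hzv] using (hKP _ this.1 this.2).1 k z hzF
    · intro e he f hf hc hk
      obtain ⟨c1, c2, c3⟩ := hc
      by_cases hev : e ∈ Vis l r A s t
      · by_cases hfv : f ∈ Vis l r A s t
        · obtain ⟨k, hk'⟩ := hV2 e hev f hfv ⟨c1, c2, c3⟩
          exact ⟨k, by simpa [hev, hfv] using hk'⟩
        · exfalso
          obtain ⟨⟨g1, g2, g3, g4, g5, g6, g7⟩, hfF⟩ := hnv f hf hfv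
          have hszf := hsz f hf hfv
          obtain ⟨_, p, hp, hp1, hp2⟩ := hev
          have hpS : p < (G (l f)).1 := by
            by_contra hcon
            exact g7 p hp (by omega) (by omega)
          have : f ∈ Vis l r A (G (l f)).1 (G (l f)).2 :=
            ⟨hfF, r e, Or.inr (Or.inl ⟨e, he.1, by omega, by omega, by omega, rfl⟩), c2, c3.le⟩
          have h1 := (hKP _ hszf.1 hszf.2).2.2 f this
          have hev' : e ∈ Vis l r A s t := ⟨he, p, hp, hp1, hp2⟩
          simp [hev', hfv, h1] at hk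
      · by_cases hfv : f ∈ Vis l r A s t
        · exfalso
          obtain ⟨⟨g1, g2, g3, g4, g5, g6, g7⟩, heF⟩ := hnv e he hev
          have hsze := hsz e he hev
          obtain ⟨_, p, hp, hp1, hp2⟩ := hfv
          have hpT : (G (l e)).2 ≤ p := by
            by_contra hcon
            exact g7 p hp (by omega) (by omega)
          have : e ∈ Vis l r A (G (l e)).1 (G (l e)).2 :=
            ⟨heF, l f, Or.inr (Or.inr ⟨f, hf.1, by omega, by omega, by omega, rfl⟩), c1.le, c2⟩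
          have h1 := (hKP _ hsze.1 hsze.2).2.2 e this
          have hfv' : f ∈ Vis l r A s t := ⟨hf, p, hp, hp1, hp2⟩
          simp [hev, hfv', h1] at hk
        · obtain ⟨⟨g1, g2, g3, g4, g5, g6, g7⟩, heF⟩ := hnv e he hev
          obtain ⟨⟨g1', g2', g3', g4', g5', g6', g7'⟩, hfF⟩ := hnv f hf hfv
          have hsze := hsz e he hev
          have q1 : (G (l e)).1 = (G (l f)).1 := by
            rcases lt_trichotomy (G (l e)).1 (G (l f)).1 with hlt | heq | hgt
            · exact (g7 _ g5' (by omega) (by omega)).elim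
            · exact heq
            · exact (g7' _ g5 (by omega) (by omega)).elim
          have q2 : (G (l e)).2 = (G (l f)).2 := by
            rcases lt_trichotomy (G (l e)).2 (G (l f)).2 with hlt | heq | hgt
            · rcases g6 with g6 | g6
              · exact (g7' _ g6 (by omega) hlt).elim
              · omega
            · exact heq
            · rcases g6' with g6' | g6'
              · exact (g7 _ g6' (by omega) hgt).elim
              · omega
          have q : G (l f) = G (l e) := Prod.ext q1.symm q2.symm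
          rw [q] at hfF
          have hk2 : (KP (G (l e))).1 e = (KP (G (l e))).1 f := by
            simpa [hev, hfv, q] using hk
          obtain ⟨k, hk3⟩ := (hKP _ hsze.1 hsze.2).2.1 e heF f hfF ⟨c1, c2, c3⟩ hk2
          exact ⟨k, by simpa [hev, hfv, q] using hk3⟩
    · intro z hz
      simp [hz]

/-- intervals of the region meeting a right end of an interval entering from the left -/
def VisR (l r : ι → ℕ) (A : Set ι) (s t : ℕ) : Set ι :=
  {z | z ∈ Fam l r A s t ∧ ∃ y ∈ A, l y < s ∧ s ≤ r y ∧ r y < t ∧ l z ≤ r y ∧ r y ≤ r z}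

/-- intervals of the region meeting a left end of an interval leaving to the right -/
def VisL (l r : ι → ℕ) (A : Set ι) (s t : ℕ) : Set ι :=
  {z | z ∈ Fam l r A s t ∧ ∃ y ∈ A, s ≤ l y ∧ l y < t ∧ t ≤ r y ∧ l z ≤ l y ∧ l y ≤ r z}

theorem exists_mark_count {mk : ℕ → Prop} [DecidablePred mk] :
    ∀ t g : ℕ, g < Nat.count mk t → ∃ m < t, mk m ∧ Nat.count mk m = g := by
  intro t
  induction t with
  | zero => intro g hg; simp at hg
  | succ t ih =>
    intro g hg
    rw [Nat.count_succ] at hg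
    by_cases h : g < Nat.count mk t
    · obtain ⟨m, hm, h1, h2⟩ := ih g h
      exact ⟨m, by omega, h1, h2⟩
    · by_cases hm : mk t
      · exact ⟨t, by omega, hm, by simp [hm] at hg; omega⟩
      · simp [hm] at hg
        omega

theorem count_lt_of_mark {mk : ℕ → Prop} [DecidablePred mk] {m p : ℕ} (hm : mk m) (h : m < p) :
    Nat.count mk m < Nat.count mk p := by
  have h1 : Nat.count mk (m + 1) = Nat.count mk m + 1 := by simp [Nat.count_succ, hm]
  have h2 : Nat.count mk (m + 1) ≤ Nat.count mk p := Nat.count_monotone mk (by omega)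
  omega

theorem visR_cov {l r : ι → ℕ} {A : Set ι} {h : ℕ} (hlr : ∀ z ∈ A, l z ≤ r z) (n D : ℕ)
    (IH : ∀ (l' r' : ι → ℕ) (h' : ℕ) (A' : Set ι), (∀ z ∈ A', l' z ≤ r' z) →
      (∀ z ∈ A', r' z < h') → ¬ HasSeg n l' r' h' A' → Cov D l' r' A')
    (hn : ¬ HasSeg (n + 1) l r h A) (s t : ℕ) (ht : t ≤ h) :
    Cov (2 * D + 7) l r (VisR l r A s t) := by
  classical
  have hlr' : ∀ z ∈ VisR l r A s t, l z ≤ r z := fun z hz => hlr z hz.1.1
  rcases Nat.eq_zero_or_pos s with hs0 | hs0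
  · have hemp : ∀ z, z ∉ VisR l r A s t := by
      rintro z ⟨_, y, _, h1, _⟩
      omega
    exact ⟨fun _ z => l z, fun _ z hz => (hemp z hz).elim, fun e he => (hemp e he).elim⟩
  rcases Nat.lt_or_ge t s with hts | hts
  · have hemp : ∀ z, z ∉ VisR l r A s t := by
      rintro z ⟨_, y, _, h1, h2, h3, _⟩
      omega
    exact ⟨fun _ z => l z, fun _ z hz => (hemp z hz).elim, fun e he => (hemp e he).elim⟩
  let mk : ℕ → Prop := fun p => ∃ y ∈ A, l y < s ∧ s ≤ r y ∧ r y < t ∧ r y = p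
  let σ : ℕ → ℕ := fun p => Nat.count mk p
  have hσ : Monotone σ := Nat.count_monotone mk
  have hmk1 : ∀ p, mk p → s ≤ p ∧ p < t := by
    rintro p ⟨y, _, _, h2, h3, rfl⟩
    exact ⟨h2, h3⟩
  have hmark : ∀ {m p : ℕ}, mk m → m < p → σ m < σ p := fun hm h => count_lt_of_mark hm h
  have hmark' : ∀ {m p : ℕ}, mk m → σ p ≤ σ m → p ≤ m := by
    intro m p hm h
    by_contra hc
    have := hmark hm (not_le.mp hc)
    omega
  have hex : ∀ g, g < σ t → ∃ m < t, mk m ∧ σ m = g := exists_mark_count t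
  let Z : Set ι := {z | z ∈ VisR l r A s t ∧ σ (r z) = σ t}
  let S : Set ι := {z | z ∈ VisR l r A s t ∧ σ (l z) = σ (r z) ∧ σ (r z) < σ t}
  let W : Set ι := {z | z ∈ VisR l r A s t ∧ σ (l z) < σ (r z) ∧ σ (r z) < σ t}
  have hsub : VisR l r A s t ⊆ (Z ∪ S) ∪ W := by
    intro z hz
    have h1 : σ (l z) ≤ σ (r z) := hσ (hlr' z hz)
    have h2 : σ (r z) ≤ σ t := hσ hz.1.2.2.le
    rcases Nat.lt_or_ge (σ (r z)) (σ t) with h3 | h3
    · rcases Nat.lt_or_ge (σ (l z)) (σ (r z)) with h4 | h4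
      · exact Or.inr ⟨hz, h4, h3⟩
      · exact Or.inl (Or.inr ⟨hz, by omega, h3⟩)
    · exact Or.inl (Or.inl ⟨hz, by omega⟩)
  -- class Z
  have hZ : Cov 1 l r Z := by
    by_cases hK : σ t = 0
    · -- no marks: VisR is empty
      refine cov_point 0 ?_
      rintro z ⟨⟨_, y, hy, h1, h2, h3, h4, h5⟩, _⟩
      exfalso
      have : σ (r y) < σ t := hmark (⟨y, hy, h1, h2, h3, rfl⟩ : mk (r y)) h3
      omega
    · obtain ⟨m, hmt, hm, hm2⟩ := hex (σ t - 1) (by omega)
      refine cov_point m ?_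
      rintro z ⟨⟨hzF, y, hy, h1, h2, h3, h4, h5⟩, hz⟩
      have hy' : mk (r y) := ⟨y, hy, h1, h2, h3, rfl⟩
      have : σ (r y) < σ t := hmark hy' h3
      have hym : r y ≤ m := hmark' hm (by omega)
      have hmr : m < r z := by
        by_contra hc
        have : σ (r z) ≤ σ m := hσ (not_lt.mp hc)
        omega
      omega
  -- class S
  have hS : Cov 1 l r S := by
    refine cov_one (fun z => l z) (fun z hz => ⟨le_rfl, hlr' z hz.1⟩) ?_
    rintro e ⟨⟨heF, y, hy, h1, h2, h3, h4, h5⟩, he1, he2⟩ f ⟨hfV, hf1, hf2⟩ ⟨c1, c2, c3⟩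
    exfalso
    have hy' : mk (r y) := ⟨y, hy, h1, h2, h3, rfl⟩
    have hre : r y = r e := by
      by_contra hne
      have hlt : r y < r e := by omega
      have q1 : σ (r y) < σ (r e) := hmark hy' hlt
      have q2 : σ (l e) ≤ σ (r y) := hσ h4
      omega
    have q1 : σ (r y) < σ (r f) := hmark hy' (by omega)
    have q2 : σ (l f) ≤ σ (r y) := hσ (by omega)
    omega
  -- class W
  have hW : Cov (2 * D + 2) l r W := by
    refine cov_quot σ hσ (fun z hz => hz.2.1) ?_
    refine IH _ _ (σ t) W (fun z hz => hz.2.1.le) (fun z hz => hz.2.2) ?_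
    rintro ⟨a, b, hab, hb, hj⟩
    apply hn
    -- lifted right ends
    have hB : ∀ i, ∃ m < t, mk m ∧ σ m = b i := fun i => hex (b i) (hb i)
    choose B hBt hBm hBb using hB
    -- lifted left ends
    have hA : ∀ i, ∃ x, s ≤ x ∧ (∀ p, s ≤ p → a i ≤ σ p → x ≤ p) ∧
        (1 ≤ a i → ∃ m, x = m + 1 ∧ mk m ∧ σ m = a i - 1) := by
      intro i
      rcases Nat.eq_zero_or_pos (a i) with h0 | h0
      · exact ⟨s, le_rfl, fun p hp _ => hp, fun h => by omega⟩
      · have := hab i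
        have := hb i
        obtain ⟨m, hmt, hm, hm2⟩ := hex (a i - 1) (by omega)
        refine ⟨m + 1, by have := (hmk1 m hm).1; omega, ?_, fun _ => ⟨m, rfl, hm, hm2⟩⟩
        intro p hp hap
        by_contra hc
        have : σ p ≤ σ m := hσ (by omega)
        omega
    choose A' hA1 hA2 hA3 using hA
    have hAB : ∀ i, A' i ≤ B i := fun i =>
      hA2 i (B i) (hmk1 _ (hBm i)).1 (by rw [hBb i]; exact hab i)
    have hin : ∀ i p, s ≤ p → a i ≤ σ p → σ p ≤ b i → A' i ≤ p ∧ p ≤ B i := by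
      intro i p hp h1 h2
      exact ⟨hA2 i p hp h1, hmark' (hBm i) (by rw [hBb i]; exact h2)⟩
    refine ⟨Fin.cons 0 A', Fin.cons (s - 1) B, ?_, ?_, ?_⟩
    · intro i
      refine Fin.cases ?_ (fun i => ?_) i
      · simp
      · simpa using hAB i
    · intro i
      refine Fin.cases ?_ (fun i => ?_) i
      · simp only [Fin.cons_zero]
        omega
      · have := hBt i
        simp only [Fin.cons_succ]
        omega
    · intro i j
      refine Fin.cases ?_ (fun i => ?_) i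
      · refine Fin.cases ?_ (fun j => ?_) j
        · intro hij
          exact absurd hij (lt_irrefl _)
        · intro _
          simp only [Fin.cons_zero, Fin.cons_succ]
          have := hA1 j
          refine ⟨by omega, Or.inr ?_⟩
          obtain ⟨y, hy, h1, h2, h3, h4⟩ := hBm j
          exact ⟨y, hy, Nat.zero_le _, by omega, by rw [h4]; exact hAB j, by omega⟩
      · refine Fin.cases ?_ (fun j => ?_) j
        · intro hij
          exact absurd hij (by simp)
        · intro hij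
          have hij' : i < j := by simpa using hij
          simp only [Fin.cons_succ]
          obtain ⟨g1, g2⟩ := hj i j hij'
          obtain ⟨m, hm0, hm1, hm2⟩ := hA3 j (by omega)
          have hBm' : B i ≤ m := by
            refine hmark' hm1 ?_
            rw [hBb i, hm2]
            omega
          refine ⟨by omega, ?_⟩
          rcases g2 with g2 | ⟨z, hz, q1, q2, q3, q4⟩
          · left
            have : m ≤ B i := by
              refine hmark' (hBm i) ?_
              rw [hBb i, hm2]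
              omega
            omega
          · right
            simp only at q1 q2 q3 q4
            have hzF := hz.1.1
            have hz3 := hlr z hzF.1
            obtain ⟨w1, w2⟩ := hin i (l z) hzF.2.1 q1 q2
            obtain ⟨w3, w4⟩ := hin j (r z) (hzF.2.1.trans hz3) q3 q4
            exact ⟨z, hzF.1, w1, w2, w3, w4⟩
  have hlrU : ∀ z ∈ (Z ∪ S) ∪ W, l z ≤ r z := by
    rintro z ((hz | hz) | hz)
    · exact hlr' z hz.1
    · exact hlr' z hz.1
    · exact hlr' z hz.1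
  have h1 := (hZ.union hS (fun z hz => hlrU z (Or.inl hz))).union hW hlrU
  exact (h1.mono_nat (D' := 2 * D + 7) (by
    rcases le_total (max 1 1 + 2) (2 * D + 2) with h | h
    · rw [max_eq_right h]; omega
    · rw [max_eq_left h]; simp) hlrU).mono hsub

theorem visL_cov {l r : ι → ℕ} {A : Set ι} {h : ℕ} (hlr : ∀ z ∈ A, l z ≤ r z)
    (hh : ∀ z ∈ A, r z < h) (n D : ℕ)
    (IH : ∀ (l' r' : ι → ℕ) (h' : ℕ) (A' : Set ι), (∀ z ∈ A', l' z ≤ r' z) →
      (∀ z ∈ A', r' z < h') → ¬ HasSeg n l' r' h' A' → Cov D l' r' A')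
    (hn : ¬ HasSeg (n + 1) l r h A) (s t : ℕ) (ht : t ≤ h) :
    Cov (2 * D + 7) l r (VisL l r A s t) := by
  have hsub : VisL l r A s t ⊆ A := fun z hz => hz.1.1
  refine cov_reflect (h := h) (fun z hz => hlr z (hsub hz)) (fun z hz => hh z (hsub hz)) ?_
  have h1 := visR_cov (l := fun z => h - 1 - r z) (r := fun z => h - 1 - l z) (A := A) (h := h)
    (fun z hz => by have := hlr z hz; show h - 1 - r z ≤ h - 1 - l z; omega) n D IH
    (fun hc => hn (hasSeg_reflect hlr hh hc)) (h - t) (h - s) (Nat.sub_le _ _)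
  refine h1.mono ?_
  rintro z ⟨⟨hzA, z1, z2⟩, y, hy, y1, y2, y3, y4, y5⟩
  have a1 := hlr z hzA
  have a2 := hh z hzA
  have a3 := hlr y hy
  have a4 := hh y hy
  refine ⟨⟨hzA, ?_, ?_⟩, y, hy, ?_, ?_, ?_, ?_, ?_⟩
  · show h - t ≤ h - 1 - r z
    omega
  · show h - 1 - l z < h - s
    omega
  · show h - 1 - r y < h - t
    omega
  · show h - t ≤ h - 1 - l y
    omega
  · show h - 1 - l y < h - s
    omega
  · show h - 1 - r z ≤ h - 1 - l y
    omega
  · show h - 1 - l y ≤ h - 1 - l z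
    omega

/-- `(*)` -/
theorem star (n : ℕ) : ∀ (ι : Type) (l r : ι → ℕ) (h : ℕ) (A : Set ι),
    (∀ z ∈ A, l z ≤ r z) → (∀ z ∈ A, r z < h) → ¬ HasSeg n l r h A →
    Cov (13 * (2 ^ n - 1)) l r A := by
  induction n with
  | zero =>
    intro ι l r h A _ _ hn
    exact absurd ⟨Fin.elim0, Fin.elim0, fun i => i.elim0, fun i => i.elim0, fun i => i.elim0⟩ hn
  | succ n hD =>
    intro ι l r h A hlr hh hn
    have hpow : 13 * (2 ^ (n + 1) - 1) = 2 * (13 * (2 ^ n - 1)) + 11 + 2 := by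
      have h2 : 1 ≤ 2 ^ n := Nat.one_le_two_pow
      rw [pow_succ]
      omega
    rw [hpow]
    generalize 13 * (2 ^ n - 1) = D at hD
    have hV : ∀ s t, t ≤ h → Cov (2 * D + 11) l r (Vis l r A s t) := by
      intro s t ht
      have h0 : Cov 1 l r {z | z ∈ Fam l r A s t ∧ l z ≤ s ∧ s ≤ r z} :=
        cov_point s (fun z hz => hz.2)
      have hR := visR_cov hlr n D (hD ι) hn s t ht
      have hL := visL_cov hlr hh n D (hD ι) hn s t ht
      have hlr1 : ∀ z ∈ VisR l r A s t ∪ VisL l r A s t, l z ≤ r z := by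
        rintro z (hz | hz)
        · exact hlr z hz.1.1
        · exact hlr z hz.1.1
      have hlr2 : ∀ z ∈ (VisR l r A s t ∪ VisL l r A s t) ∪
          {z | z ∈ Fam l r A s t ∧ l z ≤ s ∧ s ≤ r z}, l z ≤ r z := by
        rintro z (hz | hz)
        · exact hlr1 z hz
        · exact hlr z hz.1.1
      have h1 := (hR.union hL hlr1).union h0 hlr2
      have hsub : Vis l r A s t ⊆ (VisR l r A s t ∪ VisL l r A s t) ∪
          {z | z ∈ Fam l r A s t ∧ l z ≤ s ∧ s ≤ r z} := by
        rintro z ⟨hzF, p, hp, hp1, hp2⟩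
        rcases hp with rfl | ⟨y, hy, y1, y2, y3, rfl⟩ | ⟨y, hy, y1, y2, y3, rfl⟩
        · exact Or.inr ⟨hzF, hp1, hp2⟩
        · exact Or.inl (Or.inl ⟨hzF, y, hy, y1, y2, y3, hp1, hp2⟩)
        · exact Or.inl (Or.inr ⟨hzF, y, hy, y1, y2, y3, hp1, hp2⟩)
      refine (h1.mono_nat (D' := 2 * D + 11) ?_ hlr2).mono hsub
      rw [max_self, max_eq_left (by omega)]
    obtain ⟨κ, π, h1, h2, _⟩ := region hlr (2 * D + 11) hV h 0 h le_rfl (by omega)
    have hF : ∀ z ∈ A, z ∈ Fam l r A 0 h := fun z hz => ⟨hz, Nat.zero_le _, hh z hz⟩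
    exact cov_color hlr κ π (fun t z hz => h1 t z (hF z hz))
      (fun e he f hf hc hk => h2 e (hF e he) f (hF f hf) hc hk)

end Pool.Agent.MP763071
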