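import Mathlib

/-!
# MP_763071_co : ordered graphs without `n` pairwise joined segments

`(*)`: a family of integer intervals `[l z, r z] ⊆ [0,h)` such that `[0,h)` does not contain `n` pairwise
disjoint, pairwise joined segments has boundedly many choice functions reversing all crossing pairs.
-/

set_option autoImplicit false

namespace Pool.Agent.MP763071

variable {ι : Type}

/-- The intervals `[l e, r e]` and `[l f, r f]` cross, `e` being the left one. -/
def Cross (l r : ι → ℕ) (e f : ι) : Prop := l e < l f ∧ l f ≤ r e ∧ r e < r f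

/-- `D` choice functions reverse all crossing pairs in `A`. -/
def Cov (D : ℕ) (l r : ι → ℕ) (A : Set ι) : Prop :=
  ∃ π : Fin D → ι → ℕ, (∀ t, ∀ z ∈ A, l z ≤ π t z ∧ π t z ≤ r z) ∧
    ∀ e ∈ A, ∀ f ∈ A, Cross l r e f → ∃ t, π t f ≤ π t e

/-- `[0,h)` contains `n` pairwise disjoint pairwise joined segments. -/
def HasSeg (n : ℕ) (l r : ι → ℕ) (h : ℕ) (A : Set ι) : Prop :=
  ∃ a b : Fin n → ℕ, (∀ i, a i ≤ b i) ∧ (∀ i, b i < h) ∧ ∀ i j, i < j → b i < a j ∧
    (a j = b i + 1 ∨ ∃ z ∈ A, a i ≤ l z ∧ l z ≤ b i ∧ a j ≤ r z ∧ r z ≤ b j)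

theorem Cov.mono {D : ℕ} {l r : ι → ℕ} {A B : Set ι} (h : Cov D l r B) (hAB : A ⊆ B) :
    Cov D l r A := by
  obtain ⟨π, h1, h2⟩ := h
  exact ⟨π, fun t z hz => h1 t z (hAB hz), fun e he f hf => h2 e (hAB he) f (hAB hf)⟩

theorem Cov.mono_nat {D D' : ℕ} {l r : ι → ℕ} {A : Set ι} (h : Cov D l r A) (hD : D ≤ D')
    (hlr : ∀ z ∈ A, l z ≤ r z) : Cov D' l r A := by
  obtain ⟨π, h1, h2⟩ := h
  refine ⟨fun t z => if ht : t.1 < D then π ⟨t.1, ht⟩ z else l z, ?_, ?_⟩
  · intro t z hz
    by_cases ht : t.1 < D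
    · simpa [ht] using h1 ⟨t.1, ht⟩ z hz
    · simpa [ht] using hlr z hz
  · intro e he f hf hc
    obtain ⟨t, ht⟩ := h2 e he f hf hc
    exact ⟨⟨t.1, lt_of_lt_of_le t.2 hD⟩, by simpa using ht⟩

/-- a family with a common point -/
theorem cov_point {l r : ι → ℕ} {A : Set ι} (p : ℕ) (hp : ∀ z ∈ A, l z ≤ p ∧ p ≤ r z) :
    Cov 1 l r A :=
  ⟨fun _ _ => p, fun _ z hz => hp z hz, fun _ _ _ _ _ => ⟨0, le_refl _⟩⟩

/-- a choice function which is good on all crossing pairs -/
theorem cov_one {l r : ι → ℕ} {A : Set ι} (π : ι → ℕ) (hp : ∀ z ∈ A, l z ≤ π z ∧ π z ≤ r z)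
    (hc : ∀ e ∈ A, ∀ f ∈ A, Cross l r e f → π f ≤ π e) : Cov 1 l r A :=
  ⟨fun _ => π, fun _ z hz => hp z hz, fun e he f hf h => ⟨0, hc e he f hf h⟩⟩

/-- `D` functions for the pairs of equal colour give `D + 2` functions for all pairs -/
theorem cov_color {D : ℕ} {l r : ι → ℕ} {A : Set ι} (hlr : ∀ z ∈ A, l z ≤ r z) (κ : ι → Bool)
    (π : Fin D → ι → ℕ) (h1 : ∀ t, ∀ z ∈ A, l z ≤ π t z ∧ π t z ≤ r z)
    (h2 : ∀ e ∈ A, ∀ f ∈ A, Cross l r e f → κ e = κ f → ∃ t, π t f ≤ π t e) :
    Cov (D + 2) l r A := by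
  refine ⟨fun t z => if ht : t.1 < D then π ⟨t.1, ht⟩ z
    else if t.1 = D then (if κ z then r z else l z) else (if κ z then l z else r z), ?_, ?_⟩
  · intro t z hz
    by_cases ht : t.1 < D
    · simpa [ht] using h1 ⟨t.1, ht⟩ z hz
    · have := hlr z hz
      by_cases ht' : t.1 = D
      · by_cases hk : κ z <;> simp [ht', hk, this]
      · by_cases hk : κ z <;> simp [ht, ht', hk, this]
  · intro e he f hf hc
    by_cases hk : κ e = κ f
    · obtain ⟨t, ht⟩ := h2 e he f hf hc hk
      exact ⟨⟨t.1, by have := t.2; omega⟩, by simpa using ht⟩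
    · obtain ⟨c1, c2, c3⟩ := hc
      by_cases hke : κ e = true
      · have hkf : κ f = false := by
          cases h : κ f
          · rfl
          · exact absurd (hke.trans h.symm) hk
        exact ⟨⟨D, by omega⟩, by simp [hke, hkf, c2]⟩
      · have hke' : κ e = false := by simpa using hke
        have hkf : κ f = true := by
          cases h : κ f
          · exact absurd (hke'.trans h.symm) hk
          · rfl
        exact ⟨⟨D + 1, by omega⟩, by simp [hke', hkf, c2]⟩

/-- union of two families -/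
theorem Cov.union {D D' : ℕ} {l r : ι → ℕ} {A B : Set ι} (hA : Cov D l r A) (hB : Cov D' l r B)
    (hlr : ∀ z ∈ A ∪ B, l z ≤ r z) : Cov (max D D' + 2) l r (A ∪ B) := by
  classical
  obtain ⟨π, h1, h2⟩ := hA.mono_nat (le_max_left D D') (fun z hz => hlr z (Or.inl hz))
  obtain ⟨π', h1', h2'⟩ := hB.mono_nat (le_max_right D D') (fun z hz => hlr z (Or.inr hz))
  refine cov_color hlr (fun z => decide (z ∈ A)) (fun t z => if z ∈ A then π t z else π' t z) ?_ ?_
  · intro t z hz
    by_cases hzA : z ∈ A
    · simpa [hzA] using h1 t z hzA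
    · have hzB : z ∈ B := hz.resolve_left hzA
      simpa [hzA] using h1' t z hzB
  · intro e he f hf hc hk
    by_cases heA : e ∈ A
    · have hfA : f ∈ A := by simpa [heA] using hk
      obtain ⟨t, ht⟩ := h2 e heA f hfA hc
      exact ⟨t, by simpa [heA, hfA] using ht⟩
    · have hfA : f ∉ A := by simpa [heA] using hk
      obtain ⟨t, ht⟩ := h2' e (he.resolve_left heA) f (hf.resolve_left hfA) hc
      exact ⟨t, by simpa [heA, hfA] using ht⟩

/-- least position `p` with `g ≤ s p` -/
noncomputable def lo (s : ℕ → ℕ) (g : ℕ) : ℕ := sInf {p | g ≤ s p}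

theorem lo_le {s : ℕ → ℕ} {g q : ℕ} (h : g ≤ s q) : lo s g ≤ q := Nat.sInf_le h

theorem lt_lo {s : ℕ → ℕ} (hs : Monotone s) {g q q' : ℕ} (h : s q < g) (h' : g ≤ s q') :
    q < lo s g := by
  by_contra hc
  have h1 : g ≤ s (lo s g) := Nat.sInf_mem (s := {p | g ≤ s p}) ⟨q', h'⟩
  have h2 : s (lo s g) ≤ s q := hs (not_lt.mp hc)
  omega

theorem lo_mono {s : ℕ → ℕ} {g g' q' : ℕ} (h : g ≤ g') (h' : g' ≤ s q') :
    lo s g ≤ lo s g' := by
  have h1 : g' ≤ s (lo s g') := Nat.sInf_mem (s := {p | g' ≤ s p}) ⟨q', h'⟩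
  exact lo_le (h.trans h1)

/-- The quotient lemma. -/
theorem cov_quot {D : ℕ} {l r : ι → ℕ} {A : Set ι} (s : ℕ → ℕ) (hs : Monotone s)
    (hA : ∀ z ∈ A, s (l z) < s (r z))
    (h : Cov D (fun z => s (l z)) (fun z => s (r z)) A) : Cov (2 * D + 2) l r A := by
  obtain ⟨g, h1, h2⟩ := h
  have hlr : ∀ z ∈ A, l z < r z := by
    intro z hz
    by_contra hc
    have := hs (not_lt.mp hc)
    have := hA z hz
    omega
  -- version a, version b, and the two extra functions
  have key : Cov (D + D + 1 + 1) l r A := by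
    let fa : Fin D → ι → ℕ := fun t z =>
      if g t z = s (l z) then l z else if g t z = s (r z) then r z else lo s (g t z)
    let fb : Fin D → ι → ℕ := fun t z =>
      if g t z = s (l z) then l z else if g t z = s (r z) then r z else lo s (g t z + 1) - 1
    let F : ℕ → ι → ℕ := fun t z =>
      if ht : t < D then fa ⟨t, ht⟩ z
      else if ht : t - D < D then fb ⟨t - D, ht⟩ z
      else if t = D + D then lo s (s (l z) + 1) - 1 else lo s (s (r z))
    refine ⟨fun t z => F t.1 z, ?_, ?_⟩
    · rintro ⟨t, ht⟩ z hz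
      have hz1 := hA z hz
      have hz2 := hlr z hz
      show l z ≤ F t z ∧ F t z ≤ r z
      have hfa : ∀ t, l z ≤ fa t z ∧ fa t z ≤ r z := by
        intro t
        have : s (l z) ≤ g t z ∧ g t z ≤ s (r z) := h1 t z hz
        simp only [fa]
        split_ifs with c1 c2
        · omega
        · omega
        · have h3 : l z < lo s (g t z) := lt_lo hs (q' := r z) (by omega) (by omega)
          have h4 : lo s (g t z) ≤ r z := lo_le (by omega)
          omega
      have hfb : ∀ t, l z ≤ fb t z ∧ fb t z ≤ r z := by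
        intro t
        have : s (l z) ≤ g t z ∧ g t z ≤ s (r z) := h1 t z hz
        simp only [fb]
        split_ifs with c1 c2
        · omega
        · omega
        · have h3 : l z < lo s (g t z + 1) := lt_lo hs (q' := r z) (by omega) (by omega)
          have h4 : lo s (g t z + 1) ≤ r z := lo_le (by omega)
          omega
      have e1 : l z < lo s (s (l z) + 1) := lt_lo hs (q' := r z) (by omega) (by omega)
      have e2 : lo s (s (l z) + 1) ≤ r z := lo_le (by omega)
      have e3 : l z < lo s (s (r z)) := lt_lo hs (q' := r z) (by omega) (by omega)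
      have e4 : lo s (s (r z)) ≤ r z := lo_le (by omega)
      simp only [F]
      split_ifs
      · exact hfa _
      · exact hfb _
      · omega
      · omega
    · intro e he f hf hc
      obtain ⟨c1, c2, c3⟩ := hc
      have s1 : s (l e) ≤ s (l f) := hs c1.le
      have s2 : s (l f) ≤ s (r e) := hs c2
      have s3 : s (r e) ≤ s (r f) := hs c3.le
      have he1 := hA e he
      have hf1 := hA f hf
      by_cases q1 : s (l e) = s (l f)
      · refine ⟨⟨D + D, by omega⟩, ?_⟩
        simp [F, q1]
      by_cases q2 : s (r e) = s (r f)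
      · refine ⟨⟨D + D + 1, by omega⟩, ?_⟩
        have x1 : ¬ (D + D + 1 < D) := by omega
        have x2 : ¬ (D + D + 1 - D < D) := by omega
        have x3 : ¬ (D + D + 1 = D + D) := by omega
        simp [F, x1, x2, q2]
      obtain ⟨t, ht⟩ := h2 e he f hf ⟨by show s (l e) < s (l f); omega, s2,
        by show s (r e) < s (r f); omega⟩
      have ge := h1 t e he
      have gf := h1 t f hf
      simp only at ge gf
      -- values
      have n1 : g t f ≠ s (r f) := by omega
      have n2 : g t e ≠ s (l e) := by omega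
      by_cases bad : g t f = s (l f) ∧ g t e = g t f ∧ g t e ≠ s (r e)
      · obtain ⟨b1, b2, b3⟩ := bad
        refine ⟨⟨D + t.1, by have := t.2; omega⟩, ?_⟩
        have x1 : ¬ (D + t.1 < D) := by omega
        have x2 : D + t.1 - D < D := by have := t.2; omega
        have x3 : (⟨D + t.1 - D, x2⟩ : Fin D) = t := by
          ext; simp
        have y1 : F (D + t.1) f = fb t f := by
          simp only [F, x1, x2, dif_neg, dif_pos, not_false_iff, x3]
        have y2 : F (D + t.1) e = fb t e := by
          simp only [F, x1, x2, dif_neg, dif_pos, not_false_iff, x3]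
        show F (D + t.1) f ≤ F (D + t.1) e
        rw [y1, y2]
        have z1 : fb t f = l f := by simp [fb, b1]
        have z2 : fb t e = lo s (g t e + 1) - 1 := by simp [fb, n2, b3]
        rw [z1, z2]
        have : l f < lo s (g t e + 1) := lt_lo hs (q' := r e) (by omega) (by omega)
        omega
      · refine ⟨⟨t.1, by have := t.2; omega⟩, ?_⟩
        have y1 : F t.1 f = fa t f := by simp [F]
        have y2 : F t.1 e = fa t e := by simp [F]
        show F t.1 f ≤ F t.1 e
        rw [y1, y2]
        by_cases a1 : g t f = s (l f)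
        · have z1 : fa t f = l f := by simp [fa, a1]
          by_cases a2 : g t e = s (r e)
          · have z2 : fa t e = r e := by
              simp only [fa]; rw [if_neg n2, if_pos a2]
            omega
          · have z2 : fa t e = lo s (g t e) := by simp [fa, n2, a2]
            have a3 : g t e ≠ g t f := fun h => bad ⟨a1, h, a2⟩
            have : l f < lo s (g t e) := lt_lo hs (q' := r e) (by omega) (by omega)
            omega
        · have z1 : fa t f = lo s (g t f) := by simp [fa, a1, n1]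
          by_cases a2 : g t e = s (r e)
          · have z2 : fa t e = r e := by
              simp only [fa]; rw [if_neg n2, if_pos a2]
            have : lo s (g t f) ≤ r e := lo_le (by omega)
            omega
          · have z2 : fa t e = lo s (g t e) := by simp [fa, n2, a2]
            have : lo s (g t f) ≤ lo s (g t e) := lo_mono (q' := r e) ht (by omega)
            omega
  exact key.mono_nat (by omega) (fun z hz => (hlr z hz).le)

/-- reflection for `Cov` -/
theorem cov_reflect {D : ℕ} {l r : ι → ℕ} {A : Set ι} {h : ℕ} (hlr : ∀ z ∈ A, l z ≤ r z)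
    (hh : ∀ z ∈ A, r z < h)
    (hc : Cov D (fun z => h - 1 - r z) (fun z => h - 1 - l z) A) : Cov D l r A := by
  obtain ⟨π, h1, h2⟩ := hc
  refine ⟨fun t z => h - 1 - π t z, ?_, ?_⟩
  · intro t z hz
    have a1 := h1 t z hz
    have a2 := hlr z hz
    have a3 := hh z hz
    simp only at a1
    constructor
    · show l z ≤ h - 1 - π t z
      omega
    · show h - 1 - π t z ≤ r z
      omega
  · intro e he f hf hc
    obtain ⟨c1, c2, c3⟩ := hc
    have a3 := hh e he
    have a4 := hh f hf
    have a5 := hlr e he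
    have a6 := hlr f hf
    obtain ⟨t, ht⟩ := h2 f hf e he ⟨by show h - 1 - r f < h - 1 - r e; omega,
      by show h - 1 - r e ≤ h - 1 - l f; omega, by show h - 1 - l f < h - 1 - l e; omega⟩
    exact ⟨t, by show h - 1 - π t f ≤ h - 1 - π t e; omega⟩

/-- reflection for `HasSeg` -/
theorem hasSeg_reflect {n : ℕ} {l r : ι → ℕ} {A : Set ι} {h : ℕ} (hlr : ∀ z ∈ A, l z ≤ r z)
    (hh : ∀ z ∈ A, r z < h)
    (hc : HasSeg n (fun z => h - 1 - r z) (fun z => h - 1 - l z) h A) : HasSeg n l r h A := by
  obtain ⟨a, b, h1, h2, h3⟩ := hc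
  refine ⟨fun i => h - 1 - b i.rev, fun i => h - 1 - a i.rev, ?_, ?_, ?_⟩
  · intro i
    have := h1 i.rev
    show h - 1 - b i.rev ≤ h - 1 - a i.rev
    omega
  · intro i
    have := h2 i.rev
    show h - 1 - a i.rev < h
    omega
  · intro i j hij
    have hrev : j.rev < i.rev := Fin.rev_lt_rev.mpr hij
    obtain ⟨g1, g2⟩ := h3 _ _ hrev
    have k1 := h1 i.rev
    have k2 := h1 j.rev
    have k3 := h2 i.rev
    have k4 := h2 j.rev
    refine ⟨?_, ?_⟩
    · show h - 1 - a i.rev < h - 1 - b j.rev
      omega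
    · rcases g2 with g2 | ⟨z, hz, q1, q2, q3, q4⟩
      · left
        show h - 1 - b j.rev = h - 1 - a i.rev + 1
        omega
      · right
        have := hlr z hz
        have := hh z hz
        simp only at q1 q2 q3 q4
        refine ⟨z, hz, ?_, ?_, ?_, ?_⟩
        · show h - 1 - b i.rev ≤ l z
          omega
        · show l z ≤ h - 1 - a i.rev
          omega
        · show h - 1 - b j.rev ≤ r z
          omega
        · show r z ≤ h - 1 - a j.rev
          omega

end Pool.Agent.MP763071
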